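import Pool.Agent.H98.EX.WTargets

/-!
MP_65efe8_pr, row HLO (board exa_modules): the negative moment of order `1/2` of the exponential
functional of a random walk, lower bound. The moments are decreasing in `n`; for their limits the
recursions are exact inequalities, and the Wallis product gives the constant.
-/

set_option autoImplicit false

open MeasureTheory ProbabilityTheory Filter Topology
open scoped ENNReal
open Pool.Agent.H95 Pool.Agent.H95.Cop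
open Pool.Agent.H55.CG (Mo)
open Pool.Agent.H98.EX

namespace Pool.Agent.H96.EX

/-- rising factorial of `1/2` -/
noncomputable def PP (m : ℕ) : ℝ := ∏ i ∈ Finset.range m, ((i : ℝ) + 1 / 2)

lemma PP_pos (m : ℕ) : 0 < PP m := Finset.prod_pos fun i _ => by positivity

lemma wallis (m : ℕ) : PP m ^ 2 * Real.Wallis.W m * (2 * m + 1) = ((m.factorial : ℕ) : ℝ) ^ 2 := by
  induction m with
  | zero => simp [PP, Real.Wallis.W]
  | succ m ih =>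
    have h1 : PP (m + 1) = PP m * ((m : ℝ) + 1 / 2) := by
      unfold PP
      rw [Finset.prod_range_succ]
    rw [h1, Real.Wallis.W_succ, Nat.factorial_succ]
    push_cast
    have h2 : (2 * (m : ℝ) + 1) ≠ 0 := by positivity
    have h3 : (2 * (m : ℝ) + 3) ≠ 0 := by positivity
    have h4 : (2 * ((m : ℝ) + 1) + 1) = 2 * (m : ℝ) + 3 := by ring
    rw [h4]
    have h5 : (PP m * ((m : ℝ) + 1 / 2)) ^ 2 * (Real.Wallis.W m *
        ((2 * (m : ℝ) + 2) / (2 * m + 1) * ((2 * m + 2) / (2 * m + 3)))) * (2 * m + 3) =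
        (PP m ^ 2 * Real.Wallis.W m * (2 * m + 1)) * ((m : ℝ) + 1) ^ 2 := by
      field_simp
    rw [h5, ih]
    ring

lemma wallis_le (m : ℕ) :
    2 * ((m.factorial : ℕ) : ℝ) ^ 2 ≤ Real.pi * (2 * m + 1) * PP m ^ 2 := by
  have h1 := wallis m
  have h2 := Real.Wallis.W_le m
  have h3 : 0 ≤ PP m ^ 2 * (2 * (m : ℝ) + 1) := by positivity
  have h4 := mul_le_mul_of_nonneg_left h2 h3
  calc 2 * ((m.factorial : ℕ) : ℝ) ^ 2
      = 2 * (PP m ^ 2 * (2 * (m : ℝ) + 1) * Real.Wallis.W m) := by rw [← h1]; ring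
    _ ≤ 2 * (PP m ^ 2 * (2 * (m : ℝ) + 1) * (Real.pi / 2)) := by linarith
    _ = Real.pi * (2 * m + 1) * PP m ^ 2 := by ring

lemma bnds {κ A ϑ a φ : ℝ} (hκ : 0 < κ) (hκ1 : κ < 1) (hϑ : 0 < ϑ)
    (hϑ0 : 100 * A * ϑ ≤ κ) (ha : 1 / 4 ≤ a) (haA : a ≤ A)
    (h1 : Real.exp (ϑ * a - κ ^ 2 * ϑ / 64) ≤ φ) (h2 : φ ≤ Real.exp (ϑ * a + κ ^ 2 * ϑ / 64)) :
    φ - 1 ≤ (1 + κ) * (ϑ * a) ∧ (1 - κ) * (ϑ * a) ≤ φ - 1 ∧ φ * (1 - κ) ≤ 1 ∧ 0 < φ := by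
  have hτ1 : κ ^ 2 * ϑ / 64 ≤ κ * ϑ / 64 := by
    have h0 : κ ^ 2 ≤ κ := by
      rw [sq]
      exact mul_le_of_le_one_left hκ.le hκ1.le
    have : κ ^ 2 * ϑ ≤ κ * ϑ := mul_le_mul_of_nonneg_right h0 hϑ.le
    linarith
  have hτ2 : κ * ϑ / 64 ≤ κ / 16 * (ϑ * a) := by
    have h3 : κ * ϑ * (1 / 4) ≤ κ * ϑ * a := mul_le_mul_of_nonneg_left ha (by positivity)
    have h4 : κ / 16 * (ϑ * a) = (κ * ϑ * a) / 16 := by ring
    rw [h4]
    linarith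
  have hτ0 : 0 ≤ κ ^ 2 * ϑ / 64 := by positivity
  obtain ⟨τ, hτ⟩ : ∃ τ : ℝ, τ = κ ^ 2 * ϑ / 64 := ⟨_, rfl⟩
  rw [← hτ] at h1 h2 hτ1 hτ0
  have hu : ϑ * a ≤ κ / 100 := by
    have h3 : ϑ * a ≤ ϑ * A := mul_le_mul_of_nonneg_left haA hϑ.le
    have h4 : 100 * A * ϑ = 100 * (ϑ * A) := by ring
    rw [h4] at hϑ0
    linarith
  have hu0 : 0 < ϑ * a := by positivity
  obtain ⟨u, hu'⟩ : ∃ u : ℝ, u = ϑ * a := ⟨_, rfl⟩
  rw [← hu'] at h1 h2 hτ2 hu hu0 ⊢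
  have hτu : τ ≤ κ / 16 * u := hτ1.trans hτ2
  have hκu : κ * u ≤ u := mul_le_of_le_one_left hu0.le hκ1.le
  have hκu0 : 0 < κ * u := mul_pos hκ hu0
  have hτu' : τ ≤ u := by
    have : κ / 16 * u = κ * u / 16 := by ring
    rw [this] at hτu
    linarith
  have hx1 : |u + τ| ≤ 1 := by
    rw [abs_of_nonneg (by linarith)]
    linarith
  have h5 := Real.abs_exp_sub_one_sub_id_le hx1
  have h6 : Real.exp (u + τ) ≤ 1 + (u + τ) + (u + τ) ^ 2 := by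
    have := (abs_le.1 h5).2
    linarith
  have h7 : u - τ + 1 ≤ Real.exp (u - τ) := Real.add_one_le_exp _
  have h8 : (u + τ) ^ 2 ≤ κ * u / 25 := by
    have h9 : (u + τ) ^ 2 ≤ (2 * u) ^ 2 := by
      apply pow_le_pow_left₀ (by linarith)
      linarith
    have h10 : u * u ≤ κ / 100 * u := mul_le_mul_of_nonneg_right hu hu0.le
    have h11 : (2 * u) ^ 2 = 4 * (u * u) := by ring
    have h12 : κ / 100 * u = κ * u / 100 := by ring
    rw [h12] at h10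
    rw [h11] at h9
    linarith
  have hτκ : τ ≤ κ * u / 16 := by
    have : κ / 16 * u = κ * u / 16 := by ring
    rwa [this] at hτu
  have e1 : (1 + κ) * u = u + κ * u := by ring
  have e2 : (1 - κ) * u = u - κ * u := by ring
  refine ⟨by rw [e1]; linarith, by rw [e2]; linarith, ?_, ?_⟩
  · have h9 : φ ≤ 1 + κ := by linarith
    have h10 : φ * (1 - κ) ≤ (1 + κ) * (1 - κ) := mul_le_mul_of_nonneg_right h9 (by linarith)
    have h11 : (1 + κ) * (1 - κ) = 1 - κ ^ 2 := by ring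
    have h12 : 0 ≤ κ ^ 2 := sq_nonneg κ
    linarith
  · exact (Real.exp_pos _).trans_le h1

lemma mean {ϱ : Measure ℝ} [IsProbabilityMeasure ϱ]
    (hi : ∀ t : ℝ, Integrable (fun z => Real.exp (t * z)) ϱ) (v : ℝ) :
    1 - Mo ϱ (-v) ≤ v * ∫ z, z ∂ϱ := by
  have hz : Integrable (fun z : ℝ => z) ϱ := by
    refine ((hi 1).add (hi (-1))).mono' measurable_id.aestronglyMeasurable ?_
    refine Eventually.of_forall fun z => ?_
    rw [Real.norm_eq_abs]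
    have h1 := Real.add_one_le_exp z
    have h2 := Real.add_one_le_exp (-z)
    have h3 := Real.exp_pos z
    have h4 := Real.exp_pos (-z)
    simp only [Pi.add_apply, one_mul, neg_mul]
    rw [abs_le]
    constructor <;> linarith
  have h1 : ∫ z, (1 - Real.exp (-v * z)) ∂ϱ = 1 - Mo ϱ (-v) := by
    rw [integral_sub (integrable_const _) (hi (-v))]
    simp [Mo]
  rw [← h1, ← integral_const_mul]
  refine integral_mono ((integrable_const _).sub (hi (-v))) (hz.const_mul v) fun z => ?_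
  have h2 := Real.add_one_le_exp (-v * z)
  show 1 - Real.exp (-v * z) ≤ v * z
  linarith

lemma meanlow {ϱ : Measure ℝ} [IsProbabilityMeasure ϱ] {κ ϑ : ℝ}
    (hi : ∀ t : ℝ, Integrable (fun z => Real.exp (t * z)) ϱ) (hκ : 0 < κ) (hκ1 : κ < 1)
    (hϑ : 0 < ϑ) (hϑκ : ϑ ≤ κ)
    (h : Mo ϱ (-(κ / 4)) ≤ Real.exp (ϑ * (-(κ / 4) / 4 + (-(κ / 4)) ^ 2 / 2) + κ ^ 2 * ϑ / 64)) :
    (1 - κ) * (ϑ / 4) ≤ ∫ z, z ∂ϱ := by
  obtain ⟨y, hy⟩ : ∃ y : ℝ, y = ϑ * κ / 16 * (1 - 3 * κ / 4) := ⟨_, rfl⟩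
  have he : ϑ * (-(κ / 4) / 4 + (-(κ / 4)) ^ 2 / 2) + κ ^ 2 * ϑ / 64 = -y := by
    rw [hy]
    ring
  rw [he] at h
  have hm := mean hi (κ / 4)
  have hy0 : 0 ≤ y := by
    rw [hy]
    exact mul_nonneg (by positivity) (by linarith)
  have hy1 : y ≤ ϑ * κ / 16 := by
    rw [hy]
    exact mul_le_of_le_one_right (by positivity) (by linarith)
  have hϑκ2 : ϑ * κ ≤ κ * 1 := by
    have h3 : ϑ * κ ≤ 1 * κ := mul_le_mul_of_nonneg_right (by linarith) hκ.le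
    linarith
  have hy2 : y ≤ 1 := by linarith
  have h5 := Real.abs_exp_sub_one_sub_id_le (x := -y) (by rw [abs_neg, abs_of_nonneg hy0]; exact hy2)
  have h6 : Real.exp (-y) ≤ 1 - y + y ^ 2 := by
    have := (abs_le.1 h5).2
    have h6' : (-y) ^ 2 = y ^ 2 := by ring
    rw [h6'] at this
    linarith
  have h7 : y ^ 2 ≤ ϑ * κ / 16 * (κ / 4) := by
    have h8 : y ^ 2 ≤ (ϑ * κ / 16) ^ 2 := pow_le_pow_left₀ hy0 hy1 2
    have h9 : (ϑ * κ / 16) ^ 2 ≤ ϑ * κ / 16 * (κ / 4) := by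
      rw [sq]
      refine mul_le_mul_of_nonneg_left ?_ (by positivity)
      linarith
    exact h8.trans h9
  have h8 : ϑ * κ / 16 * (1 - κ) ≤ κ / 4 * ∫ z, z ∂ϱ := by
    have : ϑ * κ / 16 * (1 - κ) = y - ϑ * κ / 16 * (κ / 4) := by
      rw [hy]
      ring
    linarith
  have h9 : κ / 4 * ((1 - κ) * (ϑ / 4)) ≤ κ / 4 * ∫ z, z ∂ϱ := by
    have : κ / 4 * ((1 - κ) * (ϑ / 4)) = ϑ * κ / 16 * (1 - κ) := by ring
    rw [this]
    exact h8
  exact le_of_mul_le_mul_left h9 (by positivity)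

theorem pf_HLO (hWBA : T_WBA) (hHFR : T_HFR) (hHF0 : T_HF0) (hHFD : T_HFD) (hHFC : T_HFC) :
    T_HLO := by
  have _ := hHFD
  intro η hη
  by_cases h1 : 1 ≤ η
  · refine ⟨0, 1, one_pos, fun ϑ _ _ => ⟨1, one_pos, ?_⟩⟩
    intro ϱ _ hi _ n
    have h := ((hWBA ϱ hi 0 (1 / 2) (by norm_num)).2.2.1 n).1
    have h2 : (1 - η) * Real.sqrt (ϑ / (2 * Real.pi)) ≤ 0 :=
      mul_nonpos_of_nonpos_of_nonneg (by linarith) (Real.sqrt_nonneg _)
    linarith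
  push Not at h1
  obtain ⟨k, hk⟩ := exists_nat_ge (1 / η)
  obtain ⟨κ, hκ'⟩ : ∃ κ : ℝ, κ = η / (6 * ((k : ℝ) + 1)) := ⟨_, rfl⟩
  have hk0 : (0 : ℝ) ≤ k := Nat.cast_nonneg k
  have hκ : 0 < κ := by
    rw [hκ']
    positivity
  have hκm : 6 * ((k : ℝ) + 1) * κ = η := by
    rw [hκ']
    field_simp
  have hκ1 : κ < 1 := by
    have h3 : 1 * κ ≤ 6 * ((k : ℝ) + 1) * κ :=
      mul_le_mul_of_nonneg_right (by linarith) hκ.le
    linarith
  obtain ⟨A, hA'⟩ : ∃ A : ℝ, A = ((k : ℝ) + 2) ^ 2 := ⟨_, rfl⟩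
  have hA : 4 ≤ A := by
    rw [hA']
    have h3 : (2 : ℝ) ^ 2 ≤ ((k : ℝ) + 2) ^ 2 := pow_le_pow_left₀ (by norm_num) (by linarith) 2
    linarith
  refine ⟨k + 2, κ / (100 * A), by positivity, fun ϑ hϑ hϑ0 => ⟨κ ^ 2 * ϑ / 64, by positivity, ?_⟩⟩
  intro ϱ _ hi hM
  have hϑA : 100 * A * ϑ ≤ κ := by
    rw [lt_div_iff₀ (by positivity)] at hϑ0
    linarith
  have hϑκ : ϑ ≤ κ := by
    have h3 : 1 * ϑ ≤ 100 * A * ϑ := mul_le_mul_of_nonneg_right (by linarith) hϑ.le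
    linarith
  push_cast at hM
  -- limits
  have hanti : ∀ q : ℝ, 0 ≤ q → Antitone fun n => hh ϱ n q := fun q hq n n' hn =>
    (hWBA ϱ hi 0 q hq).2.2.2.1 n n' hn
  have hbd : ∀ q : ℝ, 0 ≤ q → BddBelow (Set.range fun n => hh ϱ n q) := fun q hq =>
    ⟨0, by rintro x ⟨n, rfl⟩; exact ((hWBA ϱ hi 0 q hq).2.2.1 n).1.le⟩
  obtain ⟨L, hL⟩ : ∃ L : ℝ → ℝ, L = fun q => ⨅ n, hh ϱ n q := ⟨_, rfl⟩
  have hlim : ∀ q : ℝ, 0 ≤ q → Tendsto (fun n => hh ϱ n q) atTop (𝓝 (L q)) := fun q hq => by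
    rw [hL]
    exact tendsto_atTop_ciInf (hanti q hq) (hbd q hq)
  have hle : ∀ q : ℝ, 0 ≤ q → ∀ n, L q ≤ hh ϱ n q := fun q hq n => by
    rw [hL]
    exact ciInf_le (hbd q hq) n
  have hL0 : ∀ q : ℝ, 0 ≤ q → 0 ≤ L q := fun q hq => by
    rw [hL]
    exact le_ciInf fun n => ((hWBA ϱ hi 0 q hq).2.2.1 n).1.le
  have hlim1 : ∀ q : ℝ, 0 ≤ q → Tendsto (fun n => hh ϱ (n + 1) q) atTop (𝓝 (L q)) :=
    fun q hq => (tendsto_add_atTop_iff_nat 1).2 (hlim q hq)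
  -- recursions
  have hup : ∀ q : ℝ, 0 < q → q * L (q + 1) ≤ (Mo ϱ q - 1) * L q := by
    intro q hq
    have h2 : Tendsto (fun n => Mo ϱ q * hh ϱ n q - hh ϱ (n + 1) q) atTop
        (𝓝 (Mo ϱ q * L q - L q)) :=
      ((hlim q hq.le).const_mul _).sub (hlim1 q hq.le)
    have h3 := le_of_tendsto_of_tendsto' ((hlim1 (q + 1) (by linarith)).const_mul q) h2
      fun n => (hHFR ϱ hi q n hq).1
    linarith
  have hlo : ∀ q : ℝ, 0 < q → (Mo ϱ q - 1) * L q ≤ q * (Mo ϱ (q + 1) * L (q + 1)) := by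
    intro q hq
    have h2 : Tendsto (fun n => Mo ϱ q * hh ϱ n q - hh ϱ (n + 1) q) atTop
        (𝓝 (Mo ϱ q * L q - L q)) :=
      ((hlim q hq.le).const_mul _).sub (hlim1 q hq.le)
    have h3 := le_of_tendsto_of_tendsto' h2
      (((hlim (q + 1) (by linarith)).const_mul (Mo ϱ (q + 1))).const_mul q)
      fun n => (hHFR ϱ hi q n hq).2
    linarith
  have h0 : (∫ z, z ∂ϱ) ≤ Mo ϱ 1 * L 1 :=
    ge_of_tendsto' ((hlim 1 (by norm_num)).const_mul (Mo ϱ 1))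
      fun n => (hHF0 ϱ hi 1 n (by norm_num) le_rfl).2
  -- the moments
  have hb : ∀ q : ℝ, 1 / 2 ≤ q → q ≤ (k : ℝ) + 2 →
      Mo ϱ q - 1 ≤ (1 + κ) * (ϑ * (q / 4 + q ^ 2 / 2)) ∧
      (1 - κ) * (ϑ * (q / 4 + q ^ 2 / 2)) ≤ Mo ϱ q - 1 ∧ Mo ϱ q * (1 - κ) ≤ 1 ∧ 0 < Mo ϱ q := by
    intro q hq1 hq2
    obtain ⟨h2, h3⟩ := hM q (by linarith) hq2
    refine bnds hκ hκ1 hϑ hϑA ?_ ?_ h2 h3
    · have h4 : (1 / 2 : ℝ) ^ 2 ≤ q ^ 2 := pow_le_pow_left₀ (by norm_num) hq1 2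
      linarith
    · rw [hA']
      have h4 : q ^ 2 ≤ ((k : ℝ) + 2) ^ 2 := pow_le_pow_left₀ (by linarith) hq2 2
      have h5 : ((k : ℝ) + 2) ^ 2 = ((k : ℝ) + 2) * (k + 2) := sq _
      have h6 : 2 * ((k : ℝ) + 2) ≤ ((k : ℝ) + 2) * (k + 2) :=
        mul_le_mul_of_nonneg_right (by linarith) (by linarith)
      linarith
  -- upper chain at the half integers
  have hU : ∀ j : ℕ, j ≤ k + 1 →
      L ((j : ℝ) + 1 / 2) ≤ (1 + κ) ^ j * (ϑ / 2) ^ j * ((j.factorial : ℕ) : ℝ) * L (1 / 2) := by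
    intro j
    induction j with
    | zero => intro _; simp
    | succ j ih =>
      intro hj
      have ih' := ih (by omega)
      have hjk : (j : ℝ) ≤ k := by exact_mod_cast (by omega : j ≤ k)
      have hj0 : (0 : ℝ) ≤ j := Nat.cast_nonneg j
      obtain ⟨q, hq⟩ : ∃ q : ℝ, q = (j : ℝ) + 1 / 2 := ⟨_, rfl⟩
      have hq0 : 0 < q := by rw [hq]; positivity
      have h2 := hup q hq0
      have h3 := (hb q (by rw [hq]; linarith) (by rw [hq]; linarith)).1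
      have h4 : (Mo ϱ q - 1) * L q ≤ (1 + κ) * (ϑ * (q / 4 + q ^ 2 / 2)) * L q :=
        mul_le_mul_of_nonneg_right h3 (hL0 q hq0.le)
      have h5 : (1 + κ) * (ϑ * (q / 4 + q ^ 2 / 2)) * L q =
          q * ((1 + κ) * (ϑ / 2) * ((j : ℝ) + 1) * L q) := by
        have : ϑ * (q / 4 + q ^ 2 / 2) = q * ((ϑ / 2) * (q + 1 / 2)) := by ring
        rw [this, hq]
        ring
      have h6 : L (q + 1) ≤ (1 + κ) * (ϑ / 2) * ((j : ℝ) + 1) * L q := by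
        have : q * L (q + 1) ≤ q * ((1 + κ) * (ϑ / 2) * ((j : ℝ) + 1) * L q) := by linarith
        exact le_of_mul_le_mul_left this hq0
      have h7 : ((j + 1 : ℕ) : ℝ) + 1 / 2 = q + 1 := by
        rw [hq]
        push_cast
        ring
      rw [h7, Nat.factorial_succ]
      push_cast
      rw [← hq] at ih'
      calc L (q + 1) ≤ (1 + κ) * (ϑ / 2) * ((j : ℝ) + 1) * L q := h6
        _ ≤ (1 + κ) * (ϑ / 2) * ((j : ℝ) + 1) *
            ((1 + κ) ^ j * (ϑ / 2) ^ j * ((j.factorial : ℕ) : ℝ) * L (1 / 2)) :=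
          mul_le_mul_of_nonneg_left ih' (by positivity)
        _ = (1 + κ) ^ (j + 1) * (ϑ / 2) ^ (j + 1) * (((j : ℝ) + 1) * ((j.factorial : ℕ) : ℝ)) *
            L (1 / 2) := by ring
  -- lower chain at the integers
  have hr0 : 0 < 1 - κ := by linarith
  have hD : ∀ j : ℕ, j ≤ k →
      (1 - κ) ^ (2 * (j + 1)) * (ϑ / 2) ^ (j + 1) * PP (j + 1) ≤ L ((j : ℝ) + 1) := by
    intro j
    induction j with
    | zero =>
      intro _
      have h2 := meanlow hi hκ hκ1 hϑ hϑκ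
        (hM (-(κ / 4)) (by linarith) (by linarith)).2
      have h3 := (hb 1 (by norm_num) (by linarith)).2.2.1
      have h4 : PP (0 + 1) = 1 / 2 := by simp [PP]
      rw [h4]
      have h5 : L (((0 : ℕ) : ℝ) + 1) = L 1 := by simp
      rw [h5]
      have h6 : (1 - κ) * (Mo ϱ 1 * L 1) ≤ L 1 := by
        have : (Mo ϱ 1 * (1 - κ)) * L 1 ≤ 1 * L 1 :=
          mul_le_mul_of_nonneg_right h3 (hL0 1 (by norm_num))
        linarith
      have h7 : (1 - κ) * ((1 - κ) * (ϑ / 4)) ≤ (1 - κ) * (Mo ϱ 1 * L 1) :=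
        mul_le_mul_of_nonneg_left (h2.trans h0) hr0.le
      calc (1 - κ) ^ (2 * (0 + 1)) * (ϑ / 2) ^ (0 + 1) * (1 / 2)
          = (1 - κ) * ((1 - κ) * (ϑ / 4)) := by ring
        _ ≤ L 1 := h7.trans h6
    | succ j ih =>
      intro hj
      have ih' := ih (by omega)
      have hjk : (j : ℝ) + 1 ≤ k := by exact_mod_cast hj
      have hj0 : (0 : ℝ) ≤ j := Nat.cast_nonneg j
      obtain ⟨q, hq⟩ : ∃ q : ℝ, q = (j : ℝ) + 1 := ⟨_, rfl⟩
      have hq0 : 0 < q := by rw [hq]; positivity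
      have h2 := hlo q hq0
      have h3 := (hb q (by rw [hq]; linarith) (by rw [hq]; linarith)).2.1
      have h3' := (hb (q + 1) (by rw [hq]; linarith) (by rw [hq]; linarith)).2.2.1
      have h4 : (1 - κ) * (ϑ * (q / 4 + q ^ 2 / 2)) * L q ≤ (Mo ϱ q - 1) * L q :=
        mul_le_mul_of_nonneg_right h3 (hL0 q hq0.le)
      have h5 : (1 - κ) * (ϑ * (q / 4 + q ^ 2 / 2)) * L q =
          q * ((1 - κ) * (ϑ / 2) * (q + 1 / 2) * L q) := by ring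
      have h6 : (1 - κ) * (ϑ / 2) * (q + 1 / 2) * L q ≤ Mo ϱ (q + 1) * L (q + 1) := by
        have : q * ((1 - κ) * (ϑ / 2) * (q + 1 / 2) * L q) ≤ q * (Mo ϱ (q + 1) * L (q + 1)) := by
          linarith
        exact le_of_mul_le_mul_left this hq0
      have h6' : (1 - κ) * (Mo ϱ (q + 1) * L (q + 1)) ≤ L (q + 1) := by
        have : (Mo ϱ (q + 1) * (1 - κ)) * L (q + 1) ≤ 1 * L (q + 1) :=
          mul_le_mul_of_nonneg_right h3' (hL0 (q + 1) (by linarith))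
        linarith
      have h7 : (1 - κ) ^ 2 * (ϑ / 2) * (q + 1 / 2) * L q ≤ L (q + 1) := by
        have := mul_le_mul_of_nonneg_left h6 hr0.le
        calc (1 - κ) ^ 2 * (ϑ / 2) * (q + 1 / 2) * L q
            = (1 - κ) * ((1 - κ) * (ϑ / 2) * (q + 1 / 2) * L q) := by ring
          _ ≤ L (q + 1) := this.trans h6'
      have h8 : ((j + 1 : ℕ) : ℝ) + 1 = q + 1 := by
        rw [hq]
        push_cast
        ring
      have h9 : PP (j + 1 + 1) = PP (j + 1) * (q + 1 / 2) := by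
        unfold PP
        rw [Finset.prod_range_succ, hq]
        push_cast
        ring
      rw [h8, h9]
      rw [← hq] at ih'
      calc (1 - κ) ^ (2 * (j + 1 + 1)) * (ϑ / 2) ^ (j + 1 + 1) * (PP (j + 1) * (q + 1 / 2))
          = (1 - κ) ^ 2 * (ϑ / 2) * (q + 1 / 2) *
            ((1 - κ) ^ (2 * (j + 1)) * (ϑ / 2) ^ (j + 1) * PP (j + 1)) := by ring
        _ ≤ (1 - κ) ^ 2 * (ϑ / 2) * (q + 1 / 2) * L q :=
          mul_le_mul_of_nonneg_left ih' (by positivity)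
        _ ≤ L (q + 1) := h7
  -- convexity
  have hC : L ((k : ℝ) + 1) ^ 2 ≤ L ((k : ℝ) + 1 / 2) * L (((k + 1 : ℕ) : ℝ) + 1 / 2) := by
    have hq1 : (0 : ℝ) ≤ (k : ℝ) + 1 / 2 := by positivity
    have hq2 : (0 : ℝ) ≤ ((k + 1 : ℕ) : ℝ) + 1 / 2 := by positivity
    have hq3 : (0 : ℝ) ≤ (k : ℝ) + 1 := by positivity
    refine le_of_tendsto_of_tendsto' ((hlim _ hq3).pow 2) ((hlim _ hq1).mul (hlim _ hq2)) ?_
    intro n
    have h2 := hHFC ϱ n ((k : ℝ) + 1 / 2) (((k + 1 : ℕ) : ℝ) + 1 / 2) (1 / 2) hq1 hq2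
      (by norm_num) (by norm_num)
    have h3 : (1 / 2 : ℝ) * ((k : ℝ) + 1 / 2) + (1 - 1 / 2) * (((k + 1 : ℕ) : ℝ) + 1 / 2) =
        (k : ℝ) + 1 := by
      push_cast
      ring
    rw [h3] at h2
    have h4 := ((hWBA ϱ hi 0 _ hq1).2.2.1 n).1
    have h5 := ((hWBA ϱ hi 0 _ hq2).2.2.1 n).1
    have h6 := ((hWBA ϱ hi 0 _ hq3).2.2.1 n).1
    have h7 : ∀ x : ℝ, 0 < x → (x ^ (1 / 2 : ℝ)) ^ 2 = x := fun x hx => by
      rw [← Real.sqrt_eq_rpow, Real.sq_sqrt hx.le]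
    have h8 : (1 - 1 / 2 : ℝ) = 1 / 2 := by norm_num
    rw [h8] at h2
    calc hh ϱ n ((k : ℝ) + 1) ^ 2
        ≤ (hh ϱ n ((k : ℝ) + 1 / 2) ^ (1 / 2 : ℝ) *
          hh ϱ n (((k + 1 : ℕ) : ℝ) + 1 / 2) ^ (1 / 2 : ℝ)) ^ 2 :=
          pow_le_pow_left₀ h6.le h2 2
      _ = hh ϱ n ((k : ℝ) + 1 / 2) * hh ϱ n (((k + 1 : ℕ) : ℝ) + 1 / 2) := by
          rw [mul_pow, h7 _ h4, h7 _ h5]
  -- conclusion
  obtain ⟨x, hx⟩ : ∃ x : ℝ, x = L (1 / 2) := ⟨_, rfl⟩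
  have hx0 : 0 ≤ x := by rw [hx]; exact hL0 _ (by norm_num)
  obtain ⟨F, hF⟩ : ∃ F : ℝ, F = ((k.factorial : ℕ) : ℝ) := ⟨_, rfl⟩
  have hF0 : 0 < F := by rw [hF]; exact_mod_cast Nat.factorial_pos k
  obtain ⟨t, ht⟩ : ∃ t : ℝ, t = ϑ / 2 := ⟨_, rfl⟩
  have ht0 : 0 < t := by rw [ht]; positivity
  have e1 := hU k (by omega)
  have e2 := hU (k + 1) le_rfl
  have e3 := hD k le_rfl
  rw [← hx, ← ht, ← hF] at e1
  rw [← hx, ← ht, Nat.factorial_succ, Nat.cast_mul, ← hF] at e2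
  rw [← ht] at e3
  have hk1 : (0 : ℝ) < (k : ℝ) + 1 := by positivity
  have e4 : ((1 - κ) ^ (2 * (k + 1)) * t ^ (k + 1) * PP (k + 1)) ^ 2 ≤
      ((1 + κ) ^ k * t ^ k * F * x) * ((1 + κ) ^ (k + 1) * t ^ (k + 1) *
        (((k + 1 : ℕ) : ℝ) * F) * x) := by
    have hp : 0 ≤ (1 - κ) ^ (2 * (k + 1)) * t ^ (k + 1) * PP (k + 1) := by
      have := PP_pos (k + 1)
      positivity
    refine (pow_le_pow_left₀ hp e3 2).trans (hC.trans ?_)
    exact mul_le_mul e1 e2 (hL0 _ (by positivity)) (by positivity)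
  have e5 : (1 - κ) ^ (4 * (k + 1)) * t * PP (k + 1) ^ 2 ≤
      (1 + κ) ^ (2 * k + 1) * (((k : ℝ) + 1) * F ^ 2) * x ^ 2 := by
    have hc : 0 < t ^ (2 * k + 1) := by positivity
    refine le_of_mul_le_mul_left ?_ hc
    push_cast at e4
    calc t ^ (2 * k + 1) * ((1 - κ) ^ (4 * (k + 1)) * t * PP (k + 1) ^ 2)
        = ((1 - κ) ^ (2 * (k + 1)) * t ^ (k + 1) * PP (k + 1)) ^ 2 := by ring
      _ ≤ _ := e4
      _ = t ^ (2 * k + 1) * ((1 + κ) ^ (2 * k + 1) * (((k : ℝ) + 1) * F ^ 2) * x ^ 2) := by ring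
  have e6 : (1 - κ) ^ (6 * (k + 1)) * t * PP (k + 1) ^ 2 ≤ (((k : ℝ) + 1) * F ^ 2) * x ^ 2 := by
    have hκ2 : κ ^ 2 ≤ κ := by
      rw [sq]
      exact mul_le_of_le_one_left hκ.le hκ1.le
    have hκ3 : 0 ≤ κ ^ 2 := sq_nonneg κ
    have h2 : (1 - κ) ^ (2 * (k + 1)) * (1 + κ) ^ (2 * k + 1) ≤ 1 := by
      have h3 : (1 + κ) ^ (2 * k + 1) ≤ (1 + κ) ^ (2 * (k + 1)) :=
        pow_le_pow_right₀ (by linarith) (by omega)
      calc (1 - κ) ^ (2 * (k + 1)) * (1 + κ) ^ (2 * k + 1)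
          ≤ (1 - κ) ^ (2 * (k + 1)) * (1 + κ) ^ (2 * (k + 1)) :=
            mul_le_mul_of_nonneg_left h3 (by positivity)
        _ = (1 - κ ^ 2) ^ (2 * (k + 1)) := by rw [← mul_pow]; ring
        _ ≤ 1 := pow_le_one₀ (by linarith) (by linarith)
    have h3 : 0 ≤ (((k : ℝ) + 1) * F ^ 2) * x ^ 2 := by positivity
    calc (1 - κ) ^ (6 * (k + 1)) * t * PP (k + 1) ^ 2
        = (1 - κ) ^ (2 * (k + 1)) * ((1 - κ) ^ (4 * (k + 1)) * t * PP (k + 1) ^ 2) := by ring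
      _ ≤ (1 - κ) ^ (2 * (k + 1)) *
          ((1 + κ) ^ (2 * k + 1) * (((k : ℝ) + 1) * F ^ 2) * x ^ 2) :=
        mul_le_mul_of_nonneg_left e5 (by positivity)
      _ = ((1 - κ) ^ (2 * (k + 1)) * (1 + κ) ^ (2 * k + 1)) *
          ((((k : ℝ) + 1) * F ^ 2) * x ^ 2) := by ring
      _ ≤ 1 * ((((k : ℝ) + 1) * F ^ 2) * x ^ 2) := mul_le_mul_of_nonneg_right h2 h3
      _ = _ := one_mul _
  have e7 : 1 - η ≤ (1 - κ) ^ (6 * (k + 1)) := by
    have h2 := one_add_mul_le_pow (a := -κ) (by linarith) (6 * (k + 1))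
    push_cast at h2
    have h3 : (1 + -κ) = 1 - κ := by ring
    rw [h3] at h2
    refine le_trans ?_ h2
    linarith
  have e8 := wallis_le (k + 1)
  rw [Nat.factorial_succ, Nat.cast_mul, ← hF] at e8
  push_cast at e8
  have hη1 : 0 ≤ 1 - η := by linarith
  have e9 : (1 - η) * t * PP (k + 1) ^ 2 ≤ (((k : ℝ) + 1) * F ^ 2) * x ^ 2 := by
    refine le_trans ?_ e6
    have := PP_pos (k + 1)
    exact mul_le_mul_of_nonneg_right (mul_le_mul_of_nonneg_right e7 ht0.le) (by positivity)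
  have e10 : (1 - η) * t * (2 * (((k : ℝ) + 1) * F) ^ 2) ≤
      Real.pi * (2 * ((k : ℝ) + 1) + 1) * ((((k : ℝ) + 1) * F ^ 2) * x ^ 2) := by
    calc (1 - η) * t * (2 * (((k : ℝ) + 1) * F) ^ 2)
        ≤ (1 - η) * t * (Real.pi * (2 * ((k : ℝ) + 1) + 1) * PP (k + 1) ^ 2) :=
          mul_le_mul_of_nonneg_left e8 (by positivity)
      _ = Real.pi * (2 * ((k : ℝ) + 1) + 1) * ((1 - η) * t * PP (k + 1) ^ 2) := by ring
      _ ≤ _ := mul_le_mul_of_nonneg_left e9 (by positivity)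
  have e11 : (1 - η) * ϑ * ((k : ℝ) + 1) ≤ Real.pi * (2 * ((k : ℝ) + 1) + 1) * x ^ 2 := by
    have hc : 0 < ((k : ℝ) + 1) * F ^ 2 := by positivity
    refine le_of_mul_le_mul_left ?_ hc
    calc ((k : ℝ) + 1) * F ^ 2 * ((1 - η) * ϑ * ((k : ℝ) + 1))
        = (1 - η) * t * (2 * (((k : ℝ) + 1) * F) ^ 2) := by rw [ht]; ring
      _ ≤ _ := e10
      _ = ((k : ℝ) + 1) * F ^ 2 * (Real.pi * (2 * ((k : ℝ) + 1) + 1) * x ^ 2) := by ring
  have hηk : 1 ≤ η * k := by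
    rw [div_le_iff₀ hη] at hk
    linarith
  have e12 : (1 - η) * (2 * ((k : ℝ) + 1) + 1) ≤ 2 * ((k : ℝ) + 1) := by
    have h3 : (1 - η) * (2 * ((k : ℝ) + 1) + 1) = 2 * k + 3 - 2 * (η * k) - 3 * η := by ring
    rw [h3]
    linarith
  have e13 : (1 - η) ^ 2 * (ϑ / (2 * Real.pi)) ≤ x ^ 2 := by
    have hpi := Real.pi_pos
    have hc : 0 < Real.pi * (2 * ((k : ℝ) + 1) + 1) := by positivity
    refine le_of_mul_le_mul_left (le_trans ?_ e11) hc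
    calc Real.pi * (2 * ((k : ℝ) + 1) + 1) * ((1 - η) ^ 2 * (ϑ / (2 * Real.pi)))
        = ((1 - η) * ϑ / 2) * ((1 - η) * (2 * ((k : ℝ) + 1) + 1)) := by field_simp
      _ ≤ ((1 - η) * ϑ / 2) * (2 * ((k : ℝ) + 1)) :=
        mul_le_mul_of_nonneg_left e12 (by positivity)
      _ = (1 - η) * ϑ * ((k : ℝ) + 1) := by ring
  intro n
  refine le_trans ?_ (hle (1 / 2) (by norm_num) n)
  rw [← hx]
  refine le_of_sq_le_sq ?_ hx0
  rw [mul_pow, Real.sq_sqrt (by positivity)]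
  exact e13

end Pool.Agent.H96.EX
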